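import Pool.Agent.UC3.Cut

/-!
# UC3 (KR), block X: Lemma X, the total C^2 extension of a patch

`P`, `p j` are C^2 functions on `Y × ℝ`; `O` is a subset of the zero set of `P`, relatively open in it, with at most
one point over each `y`, and `∂_h P ≠ 0` on `O`; `K` is compact and contains `O`; no point of `{P = 0} ∩ K \ O` has
all `p j ≥ 0`.  Then for large `M` the function `extF` is of class C^2.
-/

open Filter Topology

namespace UC3

variable {Y : Type*} [NormedAddCommGroup Y] [NormedSpace ℝ Y]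
variable {κ : Type*} [Fintype κ]

/-- The total penalty at a point. -/
noncomputable def pens (p : κ → Y × ℝ → ℝ) (z : Y × ℝ) : ℝ := ∑ j, pen (p j z)

open Classical in
/-- The extension of the patch `O`. -/
noncomputable def extF (top M : ℝ) (p : κ → Y × ℝ → ℝ) (O : Set (Y × ℝ)) (y : Y) : ℝ :=
  if h : ∃ t, (y, t) ∈ O then cut top (h.choose + M * pens p (y, h.choose)) else top + 1 / 2

omit [NormedAddCommGroup Y] [NormedSpace ℝ Y] in
theorem pens_nonneg (p : κ → Y × ℝ → ℝ) (z : Y × ℝ) : 0 ≤ pens p z :=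
  Finset.sum_nonneg (fun _ _ => pen_nonneg _)

omit [NormedAddCommGroup Y] [NormedSpace ℝ Y] in
theorem pens_eq_zero {p : κ → Y × ℝ → ℝ} {z : Y × ℝ} (h : pens p z = 0) (j : κ) : 0 ≤ p j z :=
  pen_eq_zero ((Finset.sum_eq_zero_iff_of_nonneg (fun _ _ => pen_nonneg _)).1 h j (Finset.mem_univ _))

omit [NormedAddCommGroup Y] [NormedSpace ℝ Y] in
theorem pens_of_nonneg {p : κ → Y × ℝ → ℝ} {z : Y × ℝ} (h : ∀ j, 0 ≤ p j z) : pens p z = 0 :=
  Finset.sum_eq_zero (fun j _ => pen_of_nonneg (h j))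

theorem pens_contDiff {p : κ → Y × ℝ → ℝ} (hp : ∀ j, ContDiff ℝ 2 (p j)) : ContDiff ℝ 2 (pens p) :=
  ContDiff.sum (fun j _ => pen_contDiff.comp (hp j))

/-- At most one point over each `y`. -/
def Single (O : Set (Y × ℝ)) : Prop := ∀ y t t', (y, t) ∈ O → (y, t') ∈ O → t = t'

omit [NormedAddCommGroup Y] [NormedSpace ℝ Y] in
theorem extF_of_mem {top M : ℝ} {p : κ → Y × ℝ → ℝ} {O : Set (Y × ℝ)} (hO : Single O) {y : Y} {t : ℝ}
    (h : (y, t) ∈ O) : extF top M p O y = cut top (t + M * pens p (y, t)) := by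
  have hex : ∃ t, (y, t) ∈ O := ⟨t, h⟩
  have : hex.choose = t := hO y _ _ hex.choose_spec h
  unfold extF
  rw [dif_pos hex, this]

omit [NormedAddCommGroup Y] [NormedSpace ℝ Y] in
theorem extF_of_not {top M : ℝ} {p : κ → Y × ℝ → ℝ} {O : Set (Y × ℝ)} {y : Y}
    (h : ∀ t, (y, t) ∉ O) : extF top M p O y = top + 1 / 2 := by
  unfold extF
  rw [dif_neg (by rintro ⟨t, ht⟩; exact h t ht)]

omit [NormedAddCommGroup Y] [NormedSpace ℝ Y] in
/-- (F1) -/
theorem extF_eq {top M : ℝ} {p : κ → Y × ℝ → ℝ} {O : Set (Y × ℝ)} (hO : Single O) {y : Y} {t : ℝ}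
    (h : (y, t) ∈ O) (hp : ∀ j, 0 ≤ p j (y, t)) (ht : t ≤ top) : extF top M p O y = t := by
  rw [extF_of_mem hO h, pens_of_nonneg hp, mul_zero, add_zero, cut_of_le ht]

omit [NormedAddCommGroup Y] [NormedSpace ℝ Y] in
/-- (F2) -/
theorem extF_le {top M : ℝ} (hM : 0 < M) {p : κ → Y × ℝ → ℝ} {O : Set (Y × ℝ)} {y : Y} {t : ℝ}
    (ht : t < top) (h : extF top M p O y ≤ t) :
    ∃ s, s ≤ t ∧ (y, s) ∈ O ∧ (s = t → ∀ j, 0 ≤ p j (y, s)) := by
  unfold extF at h
  split_ifs at h with hex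
  · refine ⟨hex.choose, ?_, hex.choose_spec, ?_⟩
    · have h1 := (cut_ge_min top _).trans h
      rcases min_le_iff.1 h1 with h2 | h2
      · have := mul_nonneg hM.le (pens_nonneg p (y, hex.choose))
        linarith
      · linarith
    · intro hs
      have h1 := (cut_ge_min top _).trans h
      rcases min_le_iff.1 h1 with h2 | h2
      · have h3 := mul_nonneg hM.le (pens_nonneg p (y, hex.choose))
        have h4 : M * pens p (y, hex.choose) = 0 := le_antisymm (by linarith) h3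
        rcases mul_eq_zero.1 h4 with h5 | h5
        · exact absurd h5 hM.ne'
        · exact pens_eq_zero h5
      · linarith
  · linarith

variable [CompleteSpace Y]

/-- The local form of a patch: near a point of `O` the zero set is the graph of a C^2 function, and it is in
`O`. -/
theorem patch_local {P : Y × ℝ → ℝ} (hP : ContDiff ℝ 2 P) {O : Set (Y × ℝ)}
    (hO0 : ∀ z ∈ O, P z = 0) (hopen : ∀ z ∈ O, ∀ᶠ z' in 𝓝 z, P z' = 0 → z' ∈ O) {y : Y} {t : ℝ}
    (h : (y, t) ∈ O) (hd : fderiv ℝ P (y, t) (0, 1) ≠ 0) :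
    ∃ η : Y → ℝ, η y = t ∧ ContDiffAt ℝ 2 η y ∧ (∀ᶠ x in 𝓝 y, P (x, η x) = 0 ∧ (x, η x) ∈ O) ∧
      fderiv ℝ η y = -(fderiv ℝ P (y, t) (0, 1))⁻¹ • (fderiv ℝ P (y, t)).comp (.inl ℝ Y ℝ) := by
  have cdf : ContDiffAt ℝ 2 P (y, t) := hP.contDiffAt
  have hinv : (fderiv ℝ P (y, t) ∘L .inr ℝ Y ℝ).IsInvertible := by
    let e : ℝ ≃L[ℝ] ℝ := ContinuousLinearEquiv.unitsEquivAut ℝ (Units.mk0 _ hd)
    refine ⟨e, ?_⟩
    ext
    simp [e]
  have pn : (2 : WithTop ℕ∞) ≠ 0 := by norm_num
  have hη0 := cdf.implicitFunction_apply_self pn hinv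
  have hηc := cdf.contDiffAt_implicitFunction pn hinv
  have hηe := cdf.eventually_apply_implicitFunction pn hinv
  have hηd := cdf.hasStrictFDerivAt_implicitFunction pn hinv
  set η := cdf.implicitFunction pn hinv with hη
  refine ⟨η, hη0, hηc, ?_, ?_⟩
  · have hcont : ContinuousAt (fun x => (x, η x)) y :=
      continuousAt_id.prodMk hηc.continuousAt
    have h1 : Tendsto (fun x => (x, η x)) (𝓝 y) (𝓝 (y, t)) := by
      have := hcont.tendsto
      rwa [hη0] at this
    filter_upwards [hηe, h1.eventually (hopen (y, t) h)] with x hx1 hx2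
    rw [hO0 (y, t) h] at hx1
    exact ⟨hx1, hx2 hx1⟩
  · rw [hηd.hasFDerivAt.fderiv]
    have hinverse : (fderiv ℝ P (y, t) ∘L .inr ℝ Y ℝ).inverse
        = (fderiv ℝ P (y, t) (0, 1))⁻¹ • ContinuousLinearMap.id ℝ ℝ := by
      have h1 := hinv.inverse_comp_self
      ext
      have h2 := congrArg (fun L : ℝ →L[ℝ] ℝ => L 1) h1
      simp only [ContinuousLinearMap.comp_apply, ContinuousLinearMap.inr_apply,
        ContinuousLinearMap.id_apply] at h2
      have h3 : (fderiv ℝ P (y, t) ∘L .inr ℝ Y ℝ).inverse (fderiv ℝ P (y, t) (0, 1))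
          = fderiv ℝ P (y, t) (0, 1) * (fderiv ℝ P (y, t) ∘L .inr ℝ Y ℝ).inverse 1 := by
        conv_lhs => rw [show fderiv ℝ P (y, t) (0, 1) = fderiv ℝ P (y, t) (0, 1) • (1 : ℝ) by simp]
        rw [map_smul, smul_eq_mul]
      rw [h3] at h2
      simp only [smul_apply, ContinuousLinearMap.id_apply, smul_eq_mul, mul_one]
      field_simp
      linarith
    rw [hinverse]
    ext u
    simp

/-- LEMMA X. -/
theorem extF_contDiff {top : ℝ} {P : Y × ℝ → ℝ} (hP : ContDiff ℝ 2 P) {p : κ → Y × ℝ → ℝ}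
    (hp : ∀ j, ContDiff ℝ 2 (p j)) {O K : Set (Y × ℝ)} (hO : Single O) (hO0 : ∀ z ∈ O, P z = 0)
    (hd : ∀ z ∈ O, fderiv ℝ P z (0, 1) ≠ 0) (hopen : ∀ z ∈ O, ∀ᶠ z' in 𝓝 z, P z' = 0 → z' ∈ O)
    (hK : IsCompact K) (hOK : O ⊆ K) (hZ : ∀ z ∈ K, P z = 0 → z ∉ O → ∃ j, p j z < 0) :
    ∃ M0 : ℝ, ∀ M, M0 ≤ M → ContDiff ℝ 2 (extF top M p O) := by
  -- the bad part is compact
  let Z : Set (Y × ℝ) := {z | z ∈ K ∧ P z = 0 ∧ z ∉ O}
  have hZc : IsCompact Z := by
    refine hK.of_isClosed_subset ?_ (fun z hz => hz.1)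
    rw [← isOpen_compl_iff, isOpen_iff_mem_nhds]
    intro z hz
    by_cases hzK : z ∈ K
    · by_cases hzP : P z = 0
      · have hzO : z ∈ O := by
          by_contra hzO
          exact hz ⟨hzK, hzP, hzO⟩
        filter_upwards [hopen z hzO] with z' hz' hmem
        exact hmem.2.2 (hz' hmem.2.1)
      · have : ∀ᶠ z' in 𝓝 z, P z' ≠ 0 := hP.continuous.continuousAt.eventually_ne hzP
        filter_upwards [this] with z' hz' hmem
        exact hz' hmem.2.1
    · have : ∀ᶠ z' in 𝓝 z, z' ∈ Kᶜ := hK.isClosed.isOpen_compl.mem_nhds hzK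
      filter_upwards [this] with z' hz' hmem
      exact hz' hmem.1
  have hpc : Continuous (pens p) := (pens_contDiff hp).continuous
  have hpos : ∀ z ∈ Z, 0 < pens p z := by
    intro z hz
    obtain ⟨j, hj⟩ := hZ z hz.1 hz.2.1 hz.2.2
    exact Finset.sum_pos' (fun _ _ => pen_nonneg _) ⟨j, Finset.mem_univ _, pen_pos hj⟩
  obtain ⟨M0, hM0⟩ : ∃ M0 : ℝ, ∀ M, M0 ≤ M → ∀ z ∈ Z, top + 1 < z.2 + M * pens p z := by
    rcases Z.eq_empty_or_nonempty with hemp | hne
    · exact ⟨0, fun M _ z hz => by rw [hemp] at hz; exact absurd hz (Set.notMem_empty z)⟩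
    · obtain ⟨z1, hz1, hmin⟩ := hZc.exists_isMinOn hne hpc.continuousOn
      obtain ⟨z2, hz2, hmin2⟩ := hZc.exists_isMinOn hne (continuous_snd.continuousOn)
      have hc := hpos z1 hz1
      refine ⟨max 0 ((top + 2 - z2.2) / pens p z1), fun M hM z hz => ?_⟩
      have h1 : pens p z1 ≤ pens p z := hmin hz
      have h2 : z2.2 ≤ z.2 := hmin2 hz
      have hM1 : 0 ≤ M := (le_max_left _ _).trans hM
      have hM2 : (top + 2 - z2.2) / pens p z1 ≤ M := (le_max_right _ _).trans hM
      rw [div_le_iff₀ hc] at hM2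
      have h3 : M * pens p z1 ≤ M * pens p z := mul_le_mul_of_nonneg_left h1 hM1
      linarith
  refine ⟨M0, fun M hM => ?_⟩
  rw [contDiff_iff_contDiffAt]
  intro y
  by_cases hy : ∃ t, (y, t) ∈ O
  · obtain ⟨t, ht⟩ := hy
    obtain ⟨η, hη0, hηc, hηe, _⟩ := patch_local hP hO0 hopen ht (hd _ ht)
    have hev : extF top M p O =ᶠ[𝓝 y] fun x => cut top (η x + M * pens p (x, η x)) := by
      filter_upwards [hηe] with x hx
      exact extF_of_mem hO hx.2
    refine ContDiffAt.congr_of_eventuallyEq ?_ hev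
    have h1 : ContDiffAt ℝ 2 (fun x => (x, η x)) y := contDiffAt_id.prodMk hηc
    have h2 : ContDiffAt ℝ 2 (fun x => pens p (x, η x)) y := by
      have h3 : ContDiffAt ℝ 2 (pens p) (y, η y) := (pens_contDiff hp).contDiffAt
      exact ContDiffAt.comp (g := pens p) (f := fun x => (x, η x)) y h3 h1
    exact ContDiffAt.comp y (cut_contDiff top).contDiffAt (hηc.add (contDiffAt_const.mul h2))
  · push Not at hy
    have hev : extF top M p O =ᶠ[𝓝 y] fun _ => top + 1 / 2 := by
      by_contra hne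
      -- a sequence of points of `O` over points tending to `y`
      have hfr : ∃ᶠ x in 𝓝 y, x ∈ {x | extF top M p O x ≠ top + 1 / 2} :=
        Filter.not_eventually.1 hne
      have hne' : (𝓝 y ⊓ 𝓟 {x | extF top M p O x ≠ top + 1 / 2}).NeBot :=
        Filter.frequently_mem_iff_neBot.1 hfr
      have hex : ∀ x, extF top M p O x ≠ top + 1 / 2 → ∃ t, (x, t) ∈ O ∧
          t + M * pens p (x, t) < top + 1 := by
        intro x hx
        by_cases hxO : ∃ t, (x, t) ∈ O
        · obtain ⟨t, ht⟩ := hxO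
          refine ⟨t, ht, ?_⟩
          by_contra hge
          exact hx (by rw [extF_of_mem hO ht, cut_of_ge (not_lt.1 hge)])
        · push Not at hxO
          exact absurd (extF_of_not hxO) hx
      choose! s hs using hex
      set l := 𝓝 y ⊓ 𝓟 {x | extF top M p O x ≠ top + 1 / 2} with hl
      have hmem : ∀ᶠ x in l, (x, s x) ∈ O ∧ s x + M * pens p (x, s x) < top + 1 := by
        have : ∀ᶠ x in 𝓟 {x | extF top M p O x ≠ top + 1 / 2}, (x, s x) ∈ O ∧
            s x + M * pens p (x, s x) < top + 1 := by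
          rw [Filter.eventually_principal]; exact fun x hx => hs x hx
        exact this.filter_mono inf_le_right
      have hK' : ∀ᶠ x in l, (x, s x) ∈ K := hmem.mono (fun x hx => hOK hx.1)
      obtain ⟨z0, hz0K, hz0⟩ := hK.exists_mapClusterPt_of_frequently (l := l)
        (f := fun x => (x, s x)) hK'.frequently
      obtain ⟨U, hUl, hU⟩ := mapClusterPt_iff_ultrafilter.1 hz0
      -- the first component of the cluster point is `y`
      have hz1 : z0.1 = y := by
        have h1 : Tendsto (fun x => x) (U : Filter Y) (𝓝 z0.1) :=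
          (continuous_fst.tendsto z0).comp hU
        have h2 : Tendsto (fun x : Y => x) (U : Filter Y) (𝓝 y) :=
          tendsto_id.mono_left (hUl.trans inf_le_left)
        exact tendsto_nhds_unique h1 h2
      have hz0O : z0 ∉ O := by
        intro h
        apply hy z0.2
        rw [← hz1]; exact h
      have hz0P : P z0 = 0 := by
        have h1 : Tendsto (fun x => P (x, s x)) (U : Filter Y) (𝓝 (P z0)) :=
          (hP.continuous.tendsto z0).comp hU
        have h2 : Tendsto (fun x => P (x, s x)) (U : Filter Y) (𝓝 0) := by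
          refine tendsto_const_nhds.congr' ?_
          filter_upwards [hmem.filter_mono hUl] with x hx
          exact (hO0 _ hx.1).symm
        exact tendsto_nhds_unique h1 h2
      have hz0M := hM0 M hM z0 ⟨hz0K, hz0P, hz0O⟩
      have hcl : ∃ᶠ x in l, top + 1 < s x + M * pens p (x, s x) := by
        have hopen' : IsOpen {z : Y × ℝ | top + 1 < z.2 + M * pens p z} :=
          isOpen_lt continuous_const (continuous_snd.add (continuous_const.mul hpc))
        exact hz0.frequently (hopen'.mem_nhds hz0M)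
      obtain ⟨x, hx1, hx2⟩ := (hcl.and_eventually hmem).exists
      linarith [hx2.2]
    exact contDiffAt_const.congr_of_eventuallyEq hev

/-- (F1), derivative. -/
theorem extF_fderiv {top M : ℝ} {P : Y × ℝ → ℝ} (hP : ContDiff ℝ 2 P) {p : κ → Y × ℝ → ℝ}
    (hp : ∀ j, ContDiff ℝ 2 (p j)) {O : Set (Y × ℝ)} (hO : Single O) (hO0 : ∀ z ∈ O, P z = 0)
    (hopen : ∀ z ∈ O, ∀ᶠ z' in 𝓝 z, P z' = 0 → z' ∈ O) {y : Y} {t : ℝ} (h : (y, t) ∈ O)
    (hd : fderiv ℝ P (y, t) (0, 1) ≠ 0) (hpp : ∀ j, 0 ≤ p j (y, t)) (ht : t < top) :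
    fderiv ℝ (extF top M p O) y
      = -(fderiv ℝ P (y, t) (0, 1))⁻¹ • (fderiv ℝ P (y, t)).comp (.inl ℝ Y ℝ) := by
  obtain ⟨η, hη0, hηc, hηe, hηd⟩ := patch_local hP hO0 hopen h hd
  have hev : extF top M p O =ᶠ[𝓝 y] fun x => cut top (η x + M * pens p (x, η x)) := by
    filter_upwards [hηe] with x hx
    exact extF_of_mem hO hx.2
  rw [hev.fderiv_eq, ← hηd]
  have hη1 : HasFDerivAt η (fderiv ℝ η y) y := (hηc.differentiableAt (by norm_num)).hasFDerivAt
  have h1 : HasFDerivAt (fun x => pens p (x, η x)) (0 : Y →L[ℝ] ℝ) y := by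
    have hz : HasFDerivAt (pens p) (0 : Y × ℝ →L[ℝ] ℝ) (y, η y) := by
      have hdz : DifferentiableAt ℝ (pens p) (y, η y) :=
        ((pens_contDiff hp).differentiable (by norm_num)) _
      have hmin : IsLocalMin (pens p) (y, η y) := by
        refine Filter.Eventually.of_forall (fun z => ?_)
        rw [hη0, pens_of_nonneg hpp]
        exact pens_nonneg p z
      have := hmin.fderiv_eq_zero
      rw [← this]
      exact hdz.hasFDerivAt
    have h2 : HasFDerivAt (fun x => (x, η x)) ((ContinuousLinearMap.id ℝ Y).prod (fderiv ℝ η y)) y :=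
      (hasFDerivAt_id y).prodMk hη1
    have h5 : HasFDerivAt (fun x => pens p (x, η x))
        ((0 : Y × ℝ →L[ℝ] ℝ).comp ((ContinuousLinearMap.id ℝ Y).prod (fderiv ℝ η y))) y :=
      HasFDerivAt.comp (g := pens p) (f := fun x => (x, η x)) y hz h2
    rw [ContinuousLinearMap.zero_comp] at h5
    exact h5
  have h3 : HasFDerivAt (fun x => η x + M * pens p (x, η x)) (fderiv ℝ η y) y := by
    have h5 := hη1.add (h1.const_mul M)
    rw [smul_zero, add_zero] at h5
    exact h5
  have hval : η y + M * pens p (y, η y) = t := by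
    rw [hη0, pens_of_nonneg hpp]; ring
  have h4 : HasDerivAt (cut top) 1 (η y + M * pens p (y, η y)) := by
    rw [hval]
    refine (hasDerivAt_id t).congr_of_eventuallyEq ?_
    filter_upwards [Iio_mem_nhds ht] with s hs
    rw [cut_of_le (le_of_lt hs)]; rfl
  have h5 := h4.comp_hasFDerivAt y h3
  have h6 := h5.fderiv
  rw [one_smul] at h6
  exact h6

end UC3
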