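import Mathlib

/-!
# UC3 (KR), block X: the cutoff and the cubic penalty

`cut top` is of class C^2, equal to `s` for `s ≤ top` and to `top + 1/2` for `s ≥ top + 1`;
`pen s = (max (-s) 0)^3` is of class C^2, nonnegative, and zero exactly for `0 ≤ s`.
-/

open Filter Topology

namespace UC3

/-- The cutoff. -/
noncomputable def cut (top s : ℝ) : ℝ :=
  if s ≤ top then s else
    if s ≤ top + 1 then top + ((s - top) - (s - top) ^ 3 + (s - top) ^ 4 / 2) else top + 1 / 2

/-- The cubic penalty. -/
noncomputable def pen (s : ℝ) : ℝ := (max (-s) 0) ^ 3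

theorem cut_of_le {top s : ℝ} (h : s ≤ top) : cut top s = s := by
  simp [cut, h]

theorem cut_of_ge {top s : ℝ} (h : top + 1 ≤ s) : cut top s = top + 1 / 2 := by
  have h1 : ¬ s ≤ top := by linarith
  unfold cut
  rw [if_neg h1]
  split_ifs with h2
  · have : s - top = 1 := by linarith
    rw [this]; norm_num
  · rfl

theorem cut_ge_min (top s : ℝ) : min s top ≤ cut top s := by
  unfold cut
  split_ifs with h1 h2
  · exact min_le_left _ _
  · have hu0 : 0 ≤ s - top := by linarith
    have hu1 : s - top ≤ 1 := by linarith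
    have : 0 ≤ (s - top) - (s - top) ^ 3 + (s - top) ^ 4 / 2 := by
      have h3 : (s - top) ^ 3 ≤ s - top := by
        nlinarith [mul_nonneg hu0 hu0, mul_nonneg (mul_nonneg hu0 hu0) hu0]
      have h4 : 0 ≤ (s - top) ^ 4 := by positivity
      linarith
    exact (min_le_right _ _).trans (by linarith)
  · exact (min_le_right _ _).trans (by linarith)

theorem pen_nonneg (s : ℝ) : 0 ≤ pen s := by
  unfold pen; positivity

theorem pen_of_nonneg {s : ℝ} (h : 0 ≤ s) : pen s = 0 := by
  unfold pen
  rw [max_eq_right (by linarith)]; norm_num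

theorem pen_pos {s : ℝ} (h : s < 0) : 0 < pen s := by
  unfold pen
  have : 0 < max (-s) 0 := lt_max_of_lt_left (by linarith)
  positivity

theorem pen_eq_zero {s : ℝ} (h : pen s = 0) : 0 ≤ s := by
  by_contra hs
  exact (pen_pos (not_le.1 hs)).ne' h

/-- Gluing of two C^1 functions on the line. -/
theorem hasDerivAt_glue {f g f' g' : ℝ → ℝ} (a : ℝ) (hf : ∀ s, HasDerivAt f (f' s) s)
    (hg : ∀ s, HasDerivAt g (g' s) s) (h0 : f a = g a) (h1 : f' a = g' a) (s : ℝ) :
    HasDerivAt (fun s => if s ≤ a then f s else g s) (if s ≤ a then f' s else g' s) s := by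
  rcases lt_trichotomy s a with h | h | h
  · rw [if_pos h.le]
    refine (hf s).congr_of_eventuallyEq ?_
    filter_upwards [Iio_mem_nhds h] with t ht
    rw [if_pos (le_of_lt ht)]
  · subst h
    rw [if_pos le_rfl]
    have h2 : HasDerivWithinAt (fun t => if t ≤ s then f t else g t) (f' s) (Set.Iic s) s := by
      refine (hf s).hasDerivWithinAt.congr (fun t ht => ?_) ?_
      · exact if_pos (show t ≤ s from ht)
      · rw [if_pos le_rfl]
    have h3 : HasDerivWithinAt (fun t => if t ≤ s then f t else g t) (f' s) (Set.Ici s) s := by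
      rw [h1]
      refine (hg s).hasDerivWithinAt.congr (fun t ht => ?_) ?_
      · rcases eq_or_lt_of_le (show s ≤ t from ht) with h | h
        · subst h; rw [if_pos le_rfl, h0]
        · rw [if_neg (not_le.2 h)]
      · rw [if_pos le_rfl, h0]
    have h4 := h2.union h3
    rw [Set.Iic_union_Ici] at h4
    exact hasDerivWithinAt_univ.1 h4
  · rw [if_neg (not_le.2 h)]
    refine (hg s).congr_of_eventuallyEq ?_
    filter_upwards [Ioi_mem_nhds h] with t ht
    rw [if_neg (not_le.2 ht)]

/-- A function with two derivatives, the second one continuous, is of class C^2. -/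
theorem contDiff_two_of_derivs {f f' f'' : ℝ → ℝ} (h1 : ∀ s, HasDerivAt f (f' s) s)
    (h2 : ∀ s, HasDerivAt f' (f'' s) s) (h3 : Continuous f'') : ContDiff ℝ 2 f := by
  have e1 : deriv f = f' := funext (fun s => (h1 s).deriv)
  have e2 : deriv f' = f'' := funext (fun s => (h2 s).deriv)
  have hf' : ContDiff ℝ 1 f' := by
    rw [contDiff_one_iff_deriv]
    exact ⟨fun s => (h2 s).differentiableAt, by rw [e2]; exact h3⟩
  have : (2 : WithTop ℕ∞) = 1 + 1 := by norm_num
  rw [this, contDiff_succ_iff_deriv]
  refine ⟨fun s => (h1 s).differentiableAt, by simp, ?_⟩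
  rw [e1]; exact hf'

theorem pen_contDiff : ContDiff ℝ 2 pen := by
  have hp : pen = fun s => if s ≤ 0 then (-s) ^ 3 else 0 := by
    funext s
    unfold pen
    split_ifs with h
    · rw [max_eq_left (by linarith)]
    · rw [max_eq_right (by linarith)]; norm_num
  rw [hp]
  have a1 : ∀ s : ℝ, HasDerivAt (fun s : ℝ => (-s) ^ 3) (-3 * (-s) ^ 2) s := by
    intro s
    have := ((hasDerivAt_id s).neg.pow 3)
    refine this.congr_deriv ?_
    simp
  have a2 : ∀ s : ℝ, HasDerivAt (fun s : ℝ => -3 * (-s) ^ 2) (6 * (-s)) s := by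
    intro s
    have := ((hasDerivAt_id s).neg.pow 2).const_mul (-3 : ℝ)
    refine this.congr_deriv ?_
    simp; ring
  have b1 : ∀ s : ℝ, HasDerivAt (fun _ : ℝ => (0 : ℝ)) 0 s := fun s => hasDerivAt_const s 0
  refine contDiff_two_of_derivs (hasDerivAt_glue 0 a1 b1 (by norm_num) (by norm_num))
    (hasDerivAt_glue 0 a2 b1 (by norm_num) (by norm_num)) ?_
  refine Continuous.if_le (by fun_prop) (by fun_prop) continuous_id continuous_const ?_
  intro s hs; rw [hs]; norm_num

theorem cut_contDiff (top : ℝ) : ContDiff ℝ 2 (cut top) := by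
  let q : ℝ → ℝ := fun s => top + ((s - top) - (s - top) ^ 3 + (s - top) ^ 4 / 2)
  let q' : ℝ → ℝ := fun s => 1 - 3 * (s - top) ^ 2 + 2 * (s - top) ^ 3
  let q'' : ℝ → ℝ := fun s => -6 * (s - top) + 6 * (s - top) ^ 2
  have h0 : ∀ s, HasDerivAt (fun s : ℝ => s - top) 1 s := fun s => (hasDerivAt_id s).sub_const top
  have c1 : ∀ s, HasDerivAt q (q' s) s := by
    intro s
    have := (((h0 s).sub ((h0 s).pow 3)).add (((h0 s).pow 4).div_const 2)).const_add top
    refine this.congr_deriv ?_
    simp only [q']; norm_num; ring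
  have c2 : ∀ s, HasDerivAt q' (q'' s) s := by
    intro s
    have := ((((h0 s).pow 2).const_mul 3).const_sub 1).add (((h0 s).pow 3).const_mul 2)
    refine this.congr_deriv ?_
    simp only [q'']; norm_num; ring
  have d1 : ∀ s : ℝ, HasDerivAt (fun _ : ℝ => top + 1 / 2) 0 s := fun s => hasDerivAt_const s _
  have d2 : ∀ s : ℝ, HasDerivAt (fun _ : ℝ => (0 : ℝ)) 0 s := fun s => hasDerivAt_const s 0
  have e1 : ∀ s : ℝ, HasDerivAt (fun s : ℝ => s) 1 s := fun s => hasDerivAt_id s
  have e2 : ∀ s : ℝ, HasDerivAt (fun _ : ℝ => (1 : ℝ)) 0 s := fun s => hasDerivAt_const s 1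
  have g1 := hasDerivAt_glue (top + 1) c1 d1 (by simp only [q]; ring) (by simp only [q']; ring)
  have g2 := hasDerivAt_glue (top + 1) c2 d2 (by simp only [q']; ring) (by simp only [q'']; ring)
  have k1 := hasDerivAt_glue top e1 g1 (by simp [q]) (by simp [q'])
  have k2 := hasDerivAt_glue top e2 g2 (by simp [q']) (by simp [q''])
  have hcut : cut top = fun s => if s ≤ top then s else (if s ≤ top + 1 then q s else top + 1 / 2) := by
    funext s; rfl
  rw [hcut]
  refine contDiff_two_of_derivs k1 k2 ?_
  refine Continuous.if_le continuous_const ?_ continuous_id continuous_const ?_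
  · refine Continuous.if_le (by fun_prop) continuous_const continuous_id continuous_const ?_
    intro s hs; simp only [q'', hs]; ring
  · intro s hs
    rw [hs, if_pos (by linarith)]
    simp [q'']

end UC3
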