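import Pool.Agent.Lib.MP_5a1161_co_h27.Defs

/-!
# UC3 (KR): descriptions, regular vertices, charts

`Sp d` and `IsRound` are those of the library `MP_5a1161_co_h27`.
-/

open MvPolynomial Metric

namespace UC3

export Pool.Agent.MP_5a1161_co (Sp IsRound)

/-- The polynomial function of `P` on Euclidean `d`-space. -/
noncomputable def pf {d : ℕ} (P : MvPolynomial (Fin d) ℝ) (x : Sp d) : ℝ := eval (fun i => x i) P

/-- A description: `s` polynomials and a condition on their signs. -/
structure Desc (d s : ℕ) where
  P : Fin s → MvPolynomial (Fin d) ℝ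
  Φ : (Fin s → SignType) → Prop

/-- The sign vector of the description at a point. -/
noncomputable def Desc.sv {d s : ℕ} (D : Desc d s) (x : Sp d) : Fin s → SignType :=
  fun j => SignType.sign (pf (D.P j) x)

/-- The described set. -/
def Desc.set {d s : ℕ} (D : Desc d s) : Set (Sp d) := {x | D.Φ (D.sv x)}

/-- `x` is a regular vertex of the union of the sets `(D i).set`: it is in exactly the `d` sets `i ∈ T`, it is on
the boundary of each of them, for `i ∈ T` exactly one polynomial of the description, the one with number `l i`,
vanishes at `x`, and the derivatives of these `d` polynomials at `x` are linearly independent. -/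
structure RegV {d s : ℕ} {ι : Type} (D : ι → Desc d s) (T : Finset ι) (l : ι → Fin s) (x : Sp d) :
    Prop where
  card : T.card = d
  mem : ∀ i, x ∈ (D i).set ↔ i ∈ T
  front : ∀ i ∈ T, x ∈ frontier (D i).set
  zero : ∀ i ∈ T, ∀ l', pf ((D i).P l') x = 0 ↔ l' = l i
  indep : LinearIndependent ℝ (fun i : T => fderiv ℝ (pf ((D i.1).P (l i.1))) x)

end UC3
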